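import Mathlib

/-!
# Symmetric groups as quotients
-/

set_option autoImplicit false

namespace Pool.Agent.N750.HJ

open Equiv Equiv.Perm

theorem perm_central {α : Type*} [Fintype α] (h3 : 3 ≤ Fintype.card α) (x : Perm α)
    (hx : ∀ y : Perm α, x * y = y * x) : x = 1 := by
  classical
  by_contra hne
  obtain ⟨a, ha⟩ : ∃ a, x a ≠ a := by
    by_contra hcon
    push Not at hcon
    exact hne (Equiv.ext hcon)
  obtain ⟨c, hc1, hc2⟩ : ∃ c, c ≠ a ∧ c ≠ x a := by
    by_contra hcon
    push Not at hcon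
    have h1 : (Finset.univ : Finset α) ⊆ {a, x a} := by
      intro b _
      by_cases h2 : b = a
      · simp [h2]
      · simp [hcon b h2]
    have h2 := Finset.card_le_card h1
    rw [Finset.card_univ, Finset.card_pair ha.symm] at h2
    omega
  have h1 := congrArg (fun s : Perm α => s a) (hx (swap (x a) c))
  simp only [Perm.mul_apply] at h1
  rw [swap_apply_of_ne_of_ne ha.symm hc1.symm, swap_apply_left] at h1
  exact hc2 h1.symm

/-- If `A` is a normal subgroup which maps onto the symmetric group, a normal subgroup `B` with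
`A ⊓ B` in the kernel is in the kernel. -/
theorem le_ker_of_inf {Γ α : Type*} [Group Γ] [Fintype α] (h3 : 3 ≤ Fintype.card α)
    (ρ : Γ →* Perm α) (A B : Subgroup Γ) (hA : A.Normal) (hB : B.Normal) (htop : A.map ρ = ⊤)
    (h : A ⊓ B ≤ ρ.ker) : B ≤ ρ.ker := by
  intro b hb
  rw [MonoidHom.mem_ker]
  refine perm_central h3 _ fun y => ?_
  obtain ⟨a, ha, rfl⟩ : y ∈ A.map ρ := by
    rw [htop]
    exact Subgroup.mem_top _
  have h1 : b * a * b⁻¹ * a⁻¹ ∈ A ⊓ B := by
    constructor
    · exact A.mul_mem (hA.conj_mem a ha b) (A.inv_mem ha)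
    · have h2 : b * a * b⁻¹ * a⁻¹ = b * (a * b⁻¹ * a⁻¹) := by group
      rw [h2]
      exact B.mul_mem hb (hB.conj_mem _ (B.inv_mem hb) a)
  have h2 := h h1
  rw [MonoidHom.mem_ker, map_mul, map_mul, map_mul, map_inv, map_inv] at h2
  have h3 : ρ b * ρ a * (ρ b)⁻¹ = ρ a := mul_inv_eq_one.1 h2
  exact mul_inv_eq_iff_eq_mul.1 h3

/-- Kernels of surjections onto symmetric groups. -/
theorem ker_le_of_ker_le {Γ α β : Type*} [Group Γ] [Fintype α] [Fintype β]
    (hα : 5 ≤ Fintype.card α) (hβ : 5 ≤ Fintype.card β) (ρ : Γ →* Perm α) (ρ' : Γ →* Perm β)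
    (hρ : Function.Surjective ρ) (hρ' : Function.Surjective ρ') (h : ρ'.ker ≤ ρ.ker) :
    ρ.ker ≤ ρ'.ker := by
  classical
  set N : Subgroup (Perm β) := ρ.ker.map ρ' with hN
  have hNn : N.Normal := Subgroup.Normal.map inferInstance ρ' hρ'
  by_cases hbot : N = ⊥
  · intro x hx
    have h1 : ρ' x ∈ N := ⟨x, hx, rfl⟩
    rw [hbot, Subgroup.mem_bot] at h1
    exact h1
  · exfalso
    have h1 : alternatingGroup β ≤ N :=
      alternatingGroup_le_of_normal (by rwa [Nat.card_eq_fintype_card])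
        ((Subgroup.nontrivial_iff_ne_bot N).2 hbot)
    -- squares are trivial
    have h2 : ∀ x : Γ, ρ x ^ 2 = 1 := by
      intro x
      have h3 : ρ' (x ^ 2) ∈ N := by
        apply h1
        rw [Equiv.Perm.mem_alternatingGroup, map_pow, map_pow]
        exact Int.units_sq _
      obtain ⟨y, hy, hyx⟩ := h3
      have h4 : y⁻¹ * x ^ 2 ∈ ρ'.ker := by
        rw [MonoidHom.mem_ker, map_mul, map_inv, hyx, inv_mul_cancel]
      have h5 := h h4
      rw [MonoidHom.mem_ker, map_mul, map_inv, map_pow] at h5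
      have h6 : ρ y = 1 := hy
      rw [h6, inv_one, one_mul] at h5
      exact h5
    obtain ⟨a, b, c, hab, hac, hbc⟩ := Fintype.two_lt_card_iff.1 (by omega : 2 < Fintype.card α)
    obtain ⟨x, hx⟩ := hρ (swap a b * swap b c)
    have h3 := h2 x
    rw [hx, pow_two] at h3
    have h4 := congrArg (fun s : Perm α => s c) h3
    simp only [Perm.mul_apply, Perm.one_apply] at h4
    rw [swap_apply_right, swap_apply_right, swap_apply_of_ne_of_ne hab hac, swap_apply_left] at h4
    exact hbc h4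

end Pool.Agent.N750.HJ
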