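import Mathlib
import Pool.Agent.N205.SD.Cnt

/-!
# The number of points of a cube which avoid the events for a dense set of primes
-/

set_option autoImplicit false

namespace Pool.Agent.N750.HJ

open Polynomial Pool.Agent.N205.SD Pool.Agent.W484.TB Pool.Agent.W521.Density
  Pool.Agent.W521.Turan

/-- The number of the points of `S` in the cube of side `2 H`. -/
noncomputable def cnt {κ : Type} (S : Set (κ → ℤ)) (H : ℕ) : ℕ :=
  Nat.card {x : κ → ℤ // x ∈ S ∧ ∀ s, |x s| ≤ H}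

section

variable {κ : Type} [Fintype κ] [DecidableEq κ]

/-- the cube -/
noncomputable def cube (κ : Type) [Fintype κ] [DecidableEq κ] (H : ℕ) : Finset (κ → ℤ) :=
  box (fun _ => -(H : ℤ)) (fun _ => 2 * H + 1)

theorem mem_cube {H : ℕ} (x : κ → ℤ) : x ∈ cube κ H ↔ ∀ s, |x s| ≤ H := by
  unfold cube box
  rw [Fintype.mem_piFinset]
  refine forall_congr' fun s => ?_
  rw [Finset.mem_Ico, abs_le]
  push_cast
  constructor
  · rintro ⟨h1, h2⟩
    exact ⟨h1, by linarith⟩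
  · rintro ⟨h1, h2⟩
    exact ⟨h1, by linarith⟩

open Classical in
theorem cnt_eq (S : Set (κ → ℤ)) (H : ℕ) : cnt S H = ((cube κ H).filter (fun x => x ∈ S)).card := by
  unfold cnt
  refine Nat.subtype_card _ ?_
  intro x
  rw [Finset.mem_filter, mem_cube]
  exact and_comm

/-- the rate -/
noncomputable def rt (κ : Type) [Fintype κ] (H : ℕ) : ℝ :=
  (H : ℝ) ^ (-(1 / 3) : ℝ) * (H : ℝ) ^ Fintype.card κ

omit [DecidableEq κ] in
theorem rt_nonneg (H : ℕ) : 0 ≤ rt κ H := by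
  unfold rt
  positivity

omit [DecidableEq κ] in
theorem cnt_mono {S T : Set (κ → ℤ)} (h : S ⊆ T) (H : ℕ) : cnt S H ≤ cnt T H := by
  classical
  rw [cnt_eq, cnt_eq]
  refine Finset.card_le_card ?_
  intro x hx
  rw [Finset.mem_filter] at hx ⊢
  exact ⟨hx.1, h hx.2⟩

omit [DecidableEq κ] in
theorem cnt_union (S T : Set (κ → ℤ)) (H : ℕ) : cnt (S ∪ T) H ≤ cnt S H + cnt T H := by
  classical
  have h0 : ∀ S : Set (κ → ℤ), ∃ F : Finset (κ → ℤ), cnt S H = F.card ∧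
      ∀ x, x ∈ F ↔ x ∈ cube κ H ∧ x ∈ S := by
    intro S
    refine ⟨_, cnt_eq S H, fun x => ?_⟩
    rw [Finset.mem_filter]
  obtain ⟨F, h1, hF⟩ := h0 (S ∪ T)
  obtain ⟨F', h2, hF'⟩ := h0 S
  obtain ⟨F'', h3, hF''⟩ := h0 T
  rw [h1, h2, h3]
  refine le_trans (Finset.card_le_card ?_) (Finset.card_union_le _ _)
  intro x hx
  have hx := (hF x).1 hx
  rw [Finset.mem_union, hF', hF'']
  rcases hx.2 with h | h
  · exact Or.inl ⟨hx.1, h⟩
  · exact Or.inr ⟨hx.1, h⟩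

/-- `S` has at most `A log H H^(N - 1/3)` points of height at most `H`. -/
def Thin (S : Set (κ → ℤ)) : Prop :=
  ∃ A : ℝ, 0 < A ∧ ∀ H : ℕ, 2 ≤ H → (cnt S H : ℝ) ≤ A * Real.log H * rt κ H

omit [DecidableEq κ] in
theorem Thin.mono {S T : Set (κ → ℤ)} (hT : Thin T) (h : S ⊆ T) : Thin S := by
  obtain ⟨A, hA, h1⟩ := hT
  refine ⟨A, hA, fun H hH => le_trans ?_ (h1 H hH)⟩
  exact_mod_cast cnt_mono h H

omit [DecidableEq κ] in
theorem Thin.union {S T : Set (κ → ℤ)} (hS : Thin S) (hT : Thin T) : Thin (S ∪ T) := by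
  obtain ⟨A, hA, h1⟩ := hS
  obtain ⟨B, hB, h2⟩ := hT
  refine ⟨A + B, by positivity, fun H hH => ?_⟩
  have h3 : (cnt (S ∪ T) H : ℝ) ≤ cnt S H + cnt T H := by exact_mod_cast cnt_union S T H
  have h4 := h1 H hH
  have h5 := h2 H hH
  calc (cnt (S ∪ T) H : ℝ) ≤ cnt S H + cnt T H := h3
    _ ≤ A * Real.log H * rt κ H + B * Real.log H * rt κ H := add_le_add h4 h5
    _ = _ := by ring

omit [DecidableEq κ] in
theorem thin_empty : Thin (∅ : Set (κ → ℤ)) := by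
  classical
  refine ⟨1, one_pos, fun H hH => ?_⟩
  have h1 : cnt (∅ : Set (κ → ℤ)) H = 0 := by
    rw [cnt_eq]
    simp
  rw [h1, Nat.cast_zero, one_mul]
  have h2 : 0 ≤ Real.log H := Real.log_natCast_nonneg H
  exact mul_nonneg h2 (rt_nonneg H)

omit [DecidableEq κ] in
theorem Thin.iUnion {J : Type} [Finite J] (S : J → Set (κ → ℤ)) (h : ∀ j, Thin (S j)) :
    Thin (⋃ j, S j) := by
  classical
  have hf := Fintype.ofFinite J
  have h1 : ∀ T : Finset J, Thin (⋃ j ∈ T, S j) := by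
    intro T
    induction T using Finset.induction_on with
    | empty =>
      have : (⋃ j ∈ (∅ : Finset J), S j) = ∅ := by simp
      rw [this]
      exact thin_empty
    | insert a T ha ih =>
      rw [Finset.set_biUnion_insert]
      exact (h a).union ih
  refine (h1 Finset.univ).mono ?_
  intro x hx
  simpa using hx

theorem rate_le {H : ℕ} (hH : 2 ≤ H) :
    ∃ k : ℕ, 0 < k ∧ 2 ^ k ≤ H ^ 2 ∧ Real.log ((2 ^ k : ℕ) : ℝ) * ((2 ^ k : ℕ) : ℝ) ^ (-(1 / 6) : ℝ) ≤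
      4 * Real.log H * (H : ℝ) ^ (-(1 / 3) : ℝ) := by
  refine ⟨Nat.log 2 (H ^ 2), ?_, ?_, ?_⟩
  · exact Nat.log_pos one_lt_two (by nlinarith)
  · exact Nat.pow_log_le_self 2 (by positivity)
  · set k := Nat.log 2 (H ^ 2) with hk
    have h1 : 2 ^ k ≤ H ^ 2 := Nat.pow_log_le_self 2 (by positivity)
    have h2 : H ^ 2 < 2 ^ (k + 1) := Nat.lt_pow_succ_log_self one_lt_two _
    have hH0 : (0 : ℝ) < H := by positivity
    have h3 : Real.log ((2 ^ k : ℕ) : ℝ) ≤ 2 * Real.log H := by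
      have h4 : Real.log ((H : ℝ) ^ 2) = 2 * Real.log H := by
        rw [Real.log_pow]
        norm_num
      rw [← h4]
      refine Real.log_le_log (by positivity) ?_
      exact_mod_cast h1
    have h5 : (H : ℝ) ^ 2 / 2 ≤ ((2 ^ k : ℕ) : ℝ) := by
      rw [div_le_iff₀ two_pos]
      have h6 : (H ^ 2 : ℕ) ≤ 2 ^ k * 2 := by
        rw [← pow_succ]
        exact h2.le
      exact_mod_cast h6
    have h7 : ((2 ^ k : ℕ) : ℝ) ^ (-(1 / 6) : ℝ) ≤ ((H : ℝ) ^ 2 / 2) ^ (-(1 / 6) : ℝ) :=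
      Real.rpow_le_rpow_of_nonpos (by positivity) h5 (by norm_num)
    have h8 : ((H : ℝ) ^ 2 / 2) ^ (-(1 / 6) : ℝ) ≤ 2 * (H : ℝ) ^ (-(1 / 3) : ℝ) := by
      rw [Real.div_rpow (by positivity) (by norm_num), ← Real.rpow_natCast, ← Real.rpow_mul hH0.le]
      have h9 : ((2 : ℕ) : ℝ) * (-(1 / 6) : ℝ) = -(1 / 3) := by norm_num
      rw [h9, div_eq_mul_inv, mul_comm]
      refine mul_le_mul_of_nonneg_right ?_ (by positivity)
      rw [← Real.rpow_neg (by norm_num)]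
      calc (2 : ℝ) ^ (-(-(1 / 6)) : ℝ) ≤ (2 : ℝ) ^ (1 : ℝ) :=
            Real.rpow_le_rpow_of_exponent_le (by norm_num) (by norm_num)
        _ = 2 := Real.rpow_one _
    have hlog : 0 ≤ Real.log ((2 ^ k : ℕ) : ℝ) := Real.log_natCast_nonneg _
    have hlogH : 0 ≤ Real.log H := Real.log_natCast_nonneg _
    calc Real.log ((2 ^ k : ℕ) : ℝ) * ((2 ^ k : ℕ) : ℝ) ^ (-(1 / 6) : ℝ) ≤
        (2 * Real.log H) * (2 * (H : ℝ) ^ (-(1 / 3) : ℝ)) :=
          mul_le_mul h3 (h7.trans h8) (by positivity) (by positivity)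
      _ = _ := by ring

/-- **The sieve bound for an event.** -/
theorem thin_event {U : Set ℕ} (hU : Pool.Agent.W484.TB.Dense U) (c : ℝ) (hc : 0 < c) (l₀ : ℕ)
    (Ω : ∀ l : ℕ, Finset (κ → ZMod l))
    (hΩ : ∀ l : ℕ, l.Prime → l ∈ U → l₀ ≤ l → c * (l : ℝ) ^ Fintype.card κ ≤ ((Ω l).card : ℝ)) :
    Thin {x : κ → ℤ | ∀ l : ℕ, l.Prime → l ∈ U → l₀ ≤ l → red l x ∉ Ω l} := by
  classical
  obtain ⟨c₀, hc₀, hU⟩ := hU
  obtain ⟨C, hC, hF⟩ := sieve_bound_set U c₀ hc₀ hU (Fintype.card κ) c hc l₀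
  refine ⟨C * 4 * 3 ^ Fintype.card κ, by positivity, ?_⟩
  intro H hH
  obtain ⟨k, hk, hkH, hrate⟩ := rate_le hH
  have h1 := hF (2 ^ k) (Nat.prime_two.isPrimePow.pow hk.ne') (ι := κ) rfl Ω
    (fun l hl hlU hl0 _ => hΩ l hl hlU hl0) (fun _ => -(H : ℤ)) (fun _ => 2 * H + 1) (by
      intro _
      have h2 : Real.sqrt ((2 ^ k : ℕ) : ℝ) ≤ Real.sqrt ((H : ℝ) ^ 2) := by
        refine Real.sqrt_le_sqrt ?_
        exact_mod_cast hkH
      rw [Real.sqrt_sq (by positivity)] at h2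
      refine h2.trans ?_
      push_cast
      have : (0 : ℝ) ≤ H := by positivity
      linarith)
  rw [cnt_eq]
  have h2 : (((cube κ H).filter (fun x => x ∈ {x : κ → ℤ | ∀ l : ℕ, l.Prime → l ∈ U → l₀ ≤ l →
      red l x ∉ Ω l})).card : ℝ) ≤ (((box (fun _ : κ => -(H : ℤ)) (fun _ => 2 * H + 1)).filter
      (fun x => ∀ l : ℕ, l.Prime → l ∈ U → l₀ ≤ l → ¬ l ∣ 2 ^ k → red l x ∉ Ω l)).card : ℝ) := by
    have h3 : (cube κ H).filter (fun x => x ∈ {x : κ → ℤ | ∀ l : ℕ, l.Prime → l ∈ U → l₀ ≤ l →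
        red l x ∉ Ω l}) ⊆ (box (fun _ : κ => -(H : ℤ)) (fun _ => 2 * H + 1)).filter
        (fun x => ∀ l : ℕ, l.Prime → l ∈ U → l₀ ≤ l → ¬ l ∣ 2 ^ k → red l x ∉ Ω l) := by
      intro x hx
      obtain ⟨hx1, hx2⟩ := Finset.mem_filter.1 hx
      exact Finset.mem_filter.2 ⟨hx1, fun l hl hlU hl0 _ => hx2 l hl hlU hl0⟩
    exact_mod_cast Finset.card_le_card h3
  refine h2.trans (h1.trans ?_)
  have hH1 : (1 : ℝ) ≤ H := by exact_mod_cast (by omega : 1 ≤ H)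
  have h4 : (∏ _s : κ, (((2 * H + 1 : ℕ)) : ℝ)) ≤ 3 ^ Fintype.card κ * (H : ℝ) ^ Fintype.card κ := by
    rw [Finset.prod_const, Finset.card_univ, ← mul_pow]
    refine pow_le_pow_left₀ (by positivity) ?_ _
    push_cast
    linarith
  have h5 : 0 ≤ Real.log H := Real.log_natCast_nonneg _
  calc C * (Real.log ((2 ^ k : ℕ) : ℝ) * ((2 ^ k : ℕ) : ℝ) ^ (-(1 / 6) : ℝ)) *
        (∏ _s : κ, (((2 * H + 1 : ℕ)) : ℝ)) ≤
        C * (4 * Real.log H * (H : ℝ) ^ (-(1 / 3) : ℝ)) *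
          (3 ^ Fintype.card κ * (H : ℝ) ^ Fintype.card κ) := by
        refine mul_le_mul (mul_le_mul_of_nonneg_left hrate hC.le) h4 (by positivity) (by positivity)
    _ = _ := by
      unfold rt
      ring

end

end Pool.Agent.N750.HJ
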