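import Mathlib
import Pool.Agent.N750.HJ.Sv

/-!
# One exceptional set for countably many conditions
-/

set_option autoImplicit false

namespace Pool.Agent.N750.HJ

/-- `S` has at most `A (log H)^2 H^(N - 1/3)` points of height at most `H`. -/
def Thin2 {κ : Type} [Fintype κ] (S : Set (κ → ℤ)) : Prop :=
  ∃ A : ℝ, 0 < A ∧ ∀ H : ℕ, 2 ≤ H → (cnt S H : ℝ) ≤ A * Real.log H ^ 2 * rt κ H

theorem finite_cube {κ : Type} [Fintype κ] (S : Set (κ → ℤ)) (H : ℕ) :
    Finite {x : κ → ℤ // x ∈ S ∧ ∀ s, |x s| ≤ H} := by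
  classical
  refine Set.Finite.subset ((cube κ H).finite_toSet) ?_
  intro x hx
  exact (mem_cube x).2 hx.2

/-- **The diagonal argument.** -/
theorem diagonal {κ J : Type} [Fintype κ] [Countable J] (Bad : J → Set (κ → ℤ))
    (h : ∀ j, Thin (Bad j)) :
    ∃ E : Set (κ → ℤ), Thin2 E ∧ ∀ j, ∃ C : ℕ, ∀ x ∈ Bad j, (∃ s, (C : ℤ) < |x s|) → x ∈ E := by
  classical
  obtain ⟨e, he⟩ := exists_injective_nat J
  choose A hA hbd using h
  -- the thresholds
  have hC : ∀ j, ∃ C : ℕ, 2 ^ (e j) * A j ≤ Real.log C := by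
    intro j
    have h1 := (Real.tendsto_log_atTop.comp tendsto_natCast_atTop_atTop).eventually_ge_atTop
      (2 ^ (e j) * A j)
    obtain ⟨C, hC⟩ := h1.exists
    exact ⟨C, hC⟩
  choose C hC using hC
  let E : Set (κ → ℤ) := {x | ∃ j, x ∈ Bad j ∧ ∃ s, (C j : ℤ) < |x s|}
  refine ⟨E, ⟨2, two_pos, ?_⟩, fun j => ⟨C j, fun x hx hs => ⟨j, hx, hs⟩⟩⟩
  intro H hH
  -- the relevant conditions
  have hlogH : 0 < Real.log H := Real.log_pos (by exact_mod_cast (by omega : 1 < H))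
  have hrt := rt_nonneg (κ := κ) H
  -- there are finitely many points
  have hfinE : Finite {x : κ → ℤ // x ∈ E ∧ ∀ s, |x s| ≤ H} := finite_cube E H
  -- choose for each point an index
  have hidx : ∀ x : {x : κ → ℤ // x ∈ E ∧ ∀ s, |x s| ≤ H}, ∃ j, x.1 ∈ Bad j ∧ C j < H := by
    rintro ⟨x, ⟨j, hj, s, hs⟩, hx⟩
    refine ⟨j, hj, ?_⟩
    have := hx s
    omega
  choose idx hidx1 hidx2 using hidx
  have hfi := Fintype.ofFinite {x : κ → ℤ // x ∈ E ∧ ∀ s, |x s| ≤ H}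
  let T : Finset J := Finset.univ.image idx
  have h1 : cnt E H ≤ ∑ j ∈ T, cnt (Bad j) H := by
    unfold cnt
    rw [Nat.card_eq_fintype_card, ← Finset.card_univ,
      Finset.card_eq_sum_card_image idx Finset.univ]
    refine Finset.sum_le_sum fun j _ => ?_
    have hfin := finite_cube (Bad j) H
    have := Fintype.ofFinite {x : κ → ℤ // x ∈ Bad j ∧ ∀ s, |x s| ≤ H}
    rw [Nat.card_eq_fintype_card, ← Fintype.card_coe]
    refine Fintype.card_le_of_injective (fun x => ⟨x.1.1, ?_, x.1.2.2⟩) ?_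
    · have hx := (Finset.mem_filter.1 x.2).2
      have h3 := hidx1 x.1
      rwa [hx] at h3
    · intro x y hxy
      have := congrArg Subtype.val hxy
      exact Subtype.ext (Subtype.ext this)
  have h2 : ∀ j ∈ T, (cnt (Bad j) H : ℝ) ≤ (1 / 2) ^ (e j) * (Real.log H ^ 2 * rt κ H) := by
    intro j hj
    obtain ⟨x, -, rfl⟩ := Finset.mem_image.1 hj
    set j := idx x with hjdef
    have h3 := hidx2 x
    have h4 : 2 ^ (e j) * A j ≤ Real.log H := by
      refine (hC j).trans ?_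
      rcases Nat.eq_zero_or_pos (C j) with h0 | h0
      · rw [h0, Nat.cast_zero, Real.log_zero]
        exact hlogH.le
      · exact Real.log_le_log (by exact_mod_cast h0) (by exact_mod_cast h3.le)
    have h5 : A j ≤ (1 / 2) ^ (e j) * Real.log H := by
      rw [one_div, inv_pow, ← div_eq_inv_mul, le_div_iff₀ (by positivity)]
      linarith
    calc (cnt (Bad j) H : ℝ) ≤ A j * Real.log H * rt κ H := hbd j H hH
      _ ≤ ((1 / 2) ^ (e j) * Real.log H) * Real.log H * rt κ H := by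
        refine mul_le_mul_of_nonneg_right (mul_le_mul_of_nonneg_right h5 hlogH.le) hrt
      _ = _ := by ring
  have h6 : (∑ j ∈ T, (1 / 2 : ℝ) ^ (e j)) ≤ 2 := by
    have h7 : (∑ j ∈ T, (1 / 2 : ℝ) ^ (e j)) = ∑ k ∈ T.image e, (1 / 2 : ℝ) ^ k :=
      (Finset.sum_image (f := fun k : ℕ => (1 / 2 : ℝ) ^ k) (fun a _ b _ hab => he hab)).symm
    rw [h7]
    have h8 := summable_geometric_two.sum_le_tsum (T.image e) (fun _ _ => by positivity)
    rw [tsum_geometric_two] at h8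
    exact h8
  calc (cnt E H : ℝ) ≤ ∑ j ∈ T, (cnt (Bad j) H : ℝ) := by exact_mod_cast h1
    _ ≤ ∑ j ∈ T, (1 / 2) ^ (e j) * (Real.log H ^ 2 * rt κ H) := Finset.sum_le_sum h2
    _ = (∑ j ∈ T, (1 / 2 : ℝ) ^ (e j)) * (Real.log H ^ 2 * rt κ H) := by rw [Finset.sum_mul]
    _ ≤ 2 * (Real.log H ^ 2 * rt κ H) := mul_le_mul_of_nonneg_right h6 (by positivity)
    _ = _ := by ring

end Pool.Agent.N750.HJ
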