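import Mathlib
import Pool.Agent.N750.HJ.Sv

/-!
# The polynomials without the patterns form a thin set
-/

set_option autoImplicit false

namespace Pool.Agent.N750.HJ

open Polynomial Pool.Agent.N205.SD Pool.Agent.W484.TB Pool.Agent.W521.Density
  Pool.Agent.W521.Turan

/-- Modulo `l` the polynomial `h` is a product of different linear polynomials. -/
def SplitPat (h : ℤ[X]) (l : ℕ) : Prop :=
  ∃ T : Finset (ZMod l), h.map (Int.castRingHom (ZMod l)) = ∏ t ∈ T, (X - C t)

/-- The point is good for the set `U` of primes. -/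
def GoodJ {ι : Type} (U : Set ℕ) (n : ι → ℕ) (x : (Σ i, Fin (n i)) → ℤ) : Prop :=
  (∀ i, FullPat U (polys n x i)) ∧ ∀ i j, j ≠ i →
    ∃ l : ℕ, l.Prime ∧ l ∈ U ∧ CycPat (polys n x i) l 0 ∧ SplitPat (polys n x j) l

section

variable {ι : Type} [Fintype ι] [DecidableEq ι] (n : ι → ℕ)

/-- the vectors of the products of different linear polynomials -/
noncomputable def spSet (l : ℕ) [Fact l.Prime] (g : ℕ) : Finset (Fin g → ZMod l) :=
  ((Finset.univ : Finset (ZMod l)).powersetCard g).image (vec g)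

theorem spSet_lower (l : ℕ) [Fact l.Prime] {g : ℕ} (hg : 0 < g) (hl : 4 * g + 12 ≤ l) :
    l ^ g ≤ (2 * g * (2 ^ g * g.factorial)) * (spSet l g).card := by
  classical
  unfold spSet
  rw [Finset.card_image_of_injOn, Finset.card_powersetCard, Finset.card_univ, ZMod.card]
  · refine (choose_ge l g (by omega)).trans ?_
    refine Nat.mul_le_mul_right _ ?_
    exact Nat.le_mul_of_pos_left _ (by omega)
  · intro T hT T' hT' h
    exact vec_injOn l g T T' (Finset.mem_powersetCard.1 hT).2 (Finset.mem_powersetCard.1 hT').2 h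

/-- the event: the block `i` is irreducible, the block `j` splits -/
noncomputable def pairEvent (i j : ι) (l : ℕ) [Fact l.Prime] : Finset ((Σ i, Fin (n i)) → ZMod l) :=
  blocks n (fun k => if k = i then cycSet l (n k) 0 else if k = j then spSet l (n k)
    else Finset.univ)

theorem pairEvent_lower (hn : ∀ i, 2 ≤ n i) (i j : ι) (l : ℕ)
    [Fact l.Prime] (hl : ∀ i, 4 * n i + 12 ≤ l) :
    l ^ (∑ i, n i) ≤ (∏ i, (2 * n i * (2 ^ n i * (n i).factorial))) * (pairEvent n i j l).card := by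
  unfold pairEvent
  rw [card_blocks, ← Finset.prod_mul_distrib, ← Finset.prod_pow_eq_pow_sum]
  refine Finset.prod_le_prod' fun k _ => ?_
  split_ifs with h h'
  · exact cycSet_lower l (by have := hn k; omega) (hl k)
  · exact spSet_lower l (by have := hn k; omega) (hl k)
  · rw [Finset.card_univ, Fintype.card_fun, ZMod.card, Fintype.card_fin]
    exact Nat.le_mul_of_pos_left _ (by have := hn k; positivity)

theorem pat_of_mem' (i₀ : ι) (hn : 2 ≤ n i₀) (l : ℕ) [Fact l.Prime]
    (x : (Σ i, Fin (n i)) → ℤ) (hx : (fun k => red l x ⟨i₀, k⟩) ∈ cycSet l (n i₀) 0) :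
    CycPat (polys n x i₀) l 0 := by
  classical
  refine pat_of_mem n i₀ 0 (by omega) l x ?_
  unfold cycEvent
  rw [mem_blocks]
  intro i
  split_ifs with h
  · subst h
    exact hx
  · exact Finset.mem_univ _

theorem split_of_mem (i₀ : ι) (l : ℕ) [Fact l.Prime]
    (x : (Σ i, Fin (n i)) → ℤ) (hx : (fun k => red l x ⟨i₀, k⟩) ∈ spSet l (n i₀)) :
    SplitPat (polys n x i₀) l := by
  classical
  unfold spSet at hx
  obtain ⟨T, hT, hv⟩ := Finset.mem_image.1 hx
  refine ⟨T, ?_⟩
  have h1 : (polys n x i₀).map (Int.castRingHom (ZMod l)) =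
      mkPoly (n i₀) (fun k => ((x ⟨i₀, k⟩ : ℤ) : ZMod l)) := by
    unfold polys
    rw [map_mkPoly]
    rfl
  rw [h1, ← mkPoly_vec l T (Finset.mem_powersetCard.1 hT).2, hv]
  rfl

/-- the uniform bound for the primes -/
theorem thin_of_event {U : Set ℕ} (hU : Pool.Agent.W484.TB.Dense U) (hn : ∀ i, 2 ≤ n i)
    (ev : ∀ (l : ℕ) [Fact l.Prime], Finset ((Σ i, Fin (n i)) → ZMod l))
    (hev : ∀ (l : ℕ) [Fact l.Prime], (∀ i, 4 * n i + 12 ≤ l) →
      l ^ (∑ i, n i) ≤ (∏ i, (2 * n i * (2 ^ n i * (n i).factorial))) * (ev l).card)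
    (P : ((Σ i, Fin (n i)) → ℤ) → ℕ → Prop)
    (hP : ∀ (l : ℕ) [Fact l.Prime] (x : (Σ i, Fin (n i)) → ℤ), red l x ∈ ev l → P x l) :
    Thin {x : (Σ i, Fin (n i)) → ℤ | ¬ ∃ l : ℕ, l.Prime ∧ l ∈ U ∧ P x l} := by
  classical
  have hcard : Fintype.card (Σ i, Fin (n i)) = ∑ i, n i := by
    rw [Fintype.card_sigma]
    simp
  have hpos : 0 < (∏ i, (2 * n i * (2 ^ n i * (n i).factorial)) : ℕ) :=
    Finset.prod_pos fun i _ => by have := hn i; positivity
  set c : ℝ := 1 / (∏ i, (2 * n i * (2 ^ n i * (n i).factorial)) : ℕ) with hc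
  have hcpos : 0 < c := by positivity
  set l₀ : ℕ := ∑ i, (4 * n i + 12) + 3 with hl₀
  have hl₀' : ∀ i l, l₀ ≤ l → 4 * n i + 12 ≤ l := by
    intro i l hl
    have := Finset.single_le_sum (f := fun i => 4 * n i + 12) (fun j _ => Nat.zero_le _)
      (Finset.mem_univ i)
    omega
  let ev' : ∀ l : ℕ, Finset ((Σ i, Fin (n i)) → ZMod l) := fun l =>
    if h : l.Prime then (haveI := Fact.mk h; ev l) else ∅
  refine (thin_event hU c hcpos l₀ ev' ?_).mono ?_
  · intro l hl _ hl0
    have : Fact l.Prime := ⟨hl⟩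
    have h1 := hev l (fun j => hl₀' j l hl0)
    have h2 : ev' l = ev l := dif_pos hl
    rw [h2, hc, hcard, one_div, inv_mul_le_iff₀ (by exact_mod_cast hpos)]
    exact_mod_cast h1
  · intro x hx l hl hlU hl0 hmem
    have : Fact l.Prime := ⟨hl⟩
    have h2 : ev' l = ev l := dif_pos hl
    rw [h2] at hmem
    exact hx ⟨l, hl, hlU, hP l x hmem⟩

/-- **The points which are not good form a thin set.** -/
theorem thin_bad {U : Set ℕ} (hU : Pool.Agent.W484.TB.Dense U) (hn : ∀ i, 3 ≤ n i) :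
    Thin {x : (Σ i, Fin (n i)) → ℤ | ¬ GoodJ U n x} := by
  classical
  have hcyc : ∀ (i : ι) (m : ℕ), m + 2 ≤ n i →
      Thin {x : (Σ i, Fin (n i)) → ℤ | ¬ ∃ l : ℕ, l.Prime ∧ l ∈ U ∧ CycPat (polys n x i) l m} := by
    intro i m hm
    exact thin_of_event n hU (fun i => (by norm_num : 2 ≤ 3).trans (hn i))
      (fun l _ => cycEvent n i m l)
      (fun l _ hl => cycEvent_lower n (fun i => by have := hn i; omega) i m hm l hl)
      (fun x l => CycPat (polys n x i) l m) (fun l _ x hx => pat_of_mem n i m hm l x hx)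
  have hpair : ∀ (i j : ι), j ≠ i →
      Thin {x : (Σ i, Fin (n i)) → ℤ | ¬ ∃ l : ℕ, l.Prime ∧ l ∈ U ∧
        (CycPat (polys n x i) l 0 ∧ SplitPat (polys n x j) l)} := by
    intro i j hij
    refine thin_of_event n hU (fun i => (by norm_num : 2 ≤ 3).trans (hn i))
      (fun l _ => pairEvent n i j l)
      (fun l _ hl => pairEvent_lower n (fun i => by have := hn i; omega) i j l hl)
      (fun x l => CycPat (polys n x i) l 0 ∧ SplitPat (polys n x j) l) (fun l _ x hx => ?_)
    unfold pairEvent at hx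
    rw [mem_blocks] at hx
    refine ⟨pat_of_mem' n i (by have := hn i; omega) l x ?_, split_of_mem n j l x ?_⟩
    · have h1 := hx i
      rwa [if_pos rfl] at h1
    · have h1 := hx j
      rwa [if_neg hij, if_pos rfl] at h1
  have h1 := Thin.iUnion _ (fun i => hcyc i 0 (by have := hn i; omega))
  have h2 := Thin.iUnion _ (fun i => hcyc i 1 (by have := hn i; omega))
  have h3 := Thin.iUnion _ (fun i => hcyc i (n i - 2) (by have := hn i; omega))
  have h4 := Thin.iUnion _ (fun p : {p : ι × ι // p.2 ≠ p.1} => hpair p.1.1 p.1.2 p.2)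
  refine (((h1.union h2).union h3).union h4).mono ?_
  intro x hx
  by_contra hcon
  simp only [Set.mem_union, Set.mem_iUnion, Set.mem_setOf_eq, not_or, not_exists, not_not] at hcon
  obtain ⟨⟨⟨c1, c2⟩, c3⟩, c4⟩ := hcon
  apply hx
  refine ⟨fun i => ⟨?_, ?_, ?_⟩, fun i j hij => ?_⟩
  · by_contra h
    exact c1 i (by simpa using h)
  · by_contra h
    exact c2 i (by simpa using h)
  · by_contra h
    refine c3 i ?_
    rw [show (polys n x i).natDegree = n i from mkPoly_natDegree (n i) _] at h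
    simpa using h
  · by_contra h
    exact c4 ⟨(i, j), hij⟩ (by simpa using h)

end

end Pool.Agent.N750.HJ
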