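import Mathlib
import Pool.Agent.N750.HJ.Ev

/-!
# The Galois groups of the polynomials with the patterns
-/

set_option autoImplicit false

namespace Pool.Agent.N750.HJ

open Polynomial NumberField Pool.Agent.N205.SD Pool.Agent.W484.TB Pool.Agent.W484.AA
  Pool.Agent.W521.Frob Pool.Agent.W521.Criterion Pool.Agent.W521.Density

theorem irreducible_of_pat {h : ℤ[X]} (hm : h.Monic) {l : ℕ} (hl : l.Prime)
    (hp : CycPat h l 0) : Irreducible (h.map (Int.castRingHom ℚ)) := by
  have : Fact l.Prime := ⟨hl⟩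
  obtain ⟨u, T, hu, -, hT, hfac⟩ := hp
  rw [Finset.card_eq_zero] at hT
  subst hT
  rw [Finset.prod_empty, mul_one] at hfac
  rw [← hfac] at hu
  have h3 : Irreducible h := hm.irreducible_of_irreducible_map _ _ hu
  exact (Monic.irreducible_iff_irreducible_map_fraction_map hm).1 h3

/-- The Galois group over the Galois closure of `E` is the full symmetric group. -/
theorem top_of_full {h : ℤ[X]} (hm : h.Monic) (E : IntermediateField ℚ ℂ)
    [FiniteDimensional ℚ E] (h3 : 3 ≤ h.natDegree) (hpat : FullPat (splitPrimes E) h) :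
    (Gam E).map (permRt h) = ⊤ := by
  classical
  obtain ⟨⟨l0, hl0, hU0, hp0⟩, ⟨l1, hl1, hU1, hp1⟩, ⟨l2, hl2, hU2, hp2⟩⟩ := hpat
  have hirr := irreducible_of_pat hm hl0 hp0
  have hfin : Fintype (Rt h) := @Fintype.ofFinite _ (finite_rt hm)
  have hcard : Fintype.card (Rt h) = h.natDegree := card_rt hm hirr
  exact top_of_cyc _ (by rw [hcard]; exact h3) (cyc_of_pat hm hirr E hl0 hU0 hp0)
      (cyc_of_pat hm hirr E hl1 hU1 hp1)
      (by
        rw [hcard]
        exact cyc_of_pat hm hirr E hl2 hU2 hp2)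

theorem separable_of_split {h : ℤ[X]} {l : ℕ} [hl : Fact l.Prime] (hpat : SplitPat h l)
    {k : Type*} [Field k] (ψ : ZMod l →+* k) : (h.map (Int.castRingHom k)).Separable := by
  classical
  obtain ⟨T, hfac⟩ := hpat
  have h1 : (h.map (Int.castRingHom (ZMod l))).Separable := by
    rw [hfac]
    exact separable_prod_X_sub_C_iff'.2 fun a _ b _ hab => hab
  have h2 := h1.map (f := ψ)
  rwa [Polynomial.map_map, RingHom.ext_int (ψ.comp (Int.castRingHom (ZMod l)))
    (Int.castRingHom k)] at h2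

/-- Frobenius acts trivially on the roots of a split polynomial. -/
theorem split_frob {h : ℤ[X]} (hm : h.Monic)
    {L : Type} [Field L] [NumberField L] (jA : L →ₐ[ℚ] AA)
    (hL : ∀ y : AA, aeval y h = 0 → ∃ x : L, jA x = y)
    {l : ℕ} [Fact l.Prime] (hpat : SplitPat h l) {k : Type} [Field k] [hchar : CharP k l]
    (φ : 𝓞 L →+* k) (σ : Gal(L/ℚ)) (hσ : ∀ x : 𝓞 L, φ (σ • x) = φ x ^ l)
    (s : AA ≃ₐ[ℚ] AA) (hs : ∀ x, s (jA x) = jA (σ x)) (a : Rt h) : s a.1 = a.1 := by
  let ψ : ZMod l →+* k := ZMod.castHom dvd_rfl k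
  have hsep := separable_of_split hpat ψ
  obtain ⟨T, hfac⟩ := hpat
  have hrep : ∀ a : Rt h, ∃ t : 𝓞 L, jA (t : L) = a.1 ∧ aeval t h = 0 := by
    intro a
    obtain ⟨x, hx⟩ := hL a.1 a.2
    have h1 : aeval x h = 0 := by
      have h2 := Polynomial.hom_eval₂ h (algebraMap ℤ L) (jA : L →+* AA) x
      rw [RingHom.ext_int ((jA : L →+* AA).comp (algebraMap ℤ L)) (algebraMap ℤ AA)] at h2
      have h3 : (jA : L →+* AA) x = a.1 := hx
      rw [h3] at h2
      have h4 : eval₂ (algebraMap ℤ AA) a.1 h = 0 := a.2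
      rw [h4] at h2
      exact (map_eq_zero _).1 h2
    refine ⟨⟨x, ⟨h, hm, h1⟩⟩, hx, ?_⟩
    apply RingOfIntegers.coe_injective
    have h5 := aeval_algebraMap_apply L (⟨x, ⟨h, hm, h1⟩⟩ : 𝓞 L) h
    exact h5.symm.trans (h1.trans (map_zero _).symm)
  choose t htj hth using hrep
  have hinjt : ∀ (x y : 𝓞 L), jA (x : L) = jA (y : L) → x = y := by
    intro x y hxy
    exact RingOfIntegers.coe_injective ((jA : L →+* AA).injective hxy)
  have hact : t (permRt h s a) = σ • t a := by
    apply hinjt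
    rw [htj]
    change s a.1 = jA (σ (t a : L))
    rw [← hs, htj]
  have himg : ∃ c ∈ T, φ (t a) = ψ c := by
    have h1 : ((h.map (Int.castRingHom (ZMod l))).map ψ).eval (φ (t a)) = 0 := by
      have h2 : φ (eval₂ (Int.castRingHom (𝓞 L)) (t a) h) = 0 := by
        have h3 : eval₂ (Int.castRingHom (𝓞 L)) (t a) h = aeval (t a) h := rfl
        rw [h3, hth, map_zero]
      rw [Polynomial.hom_eval₂] at h2
      rw [Polynomial.map_map, eval_map, RingHom.ext_int (ψ.comp (Int.castRingHom (ZMod l)))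
        (Int.castRingHom k)]
      rwa [RingHom.ext_int (φ.comp (Int.castRingHom (𝓞 L))) (Int.castRingHom k)] at h2
    rw [hfac, Polynomial.map_prod, eval_prod, Finset.prod_eq_zero_iff] at h1
    obtain ⟨c, hc, h1⟩ := h1
    refine ⟨c, hc, ?_⟩
    rw [Polynomial.map_sub, map_X, map_C, eval_sub, eval_X, eval_C, sub_eq_zero] at h1
    exact h1
  obtain ⟨c, -, hc⟩ := himg
  have h1 : φ (t (permRt h s a)) = φ (t a) := by
    rw [hact, hσ, hc, ← map_pow, ZMod.pow_card]
  have h2 := eq_of_map_eq φ h hsep (t (permRt h s a)) (t a) (hth _) (hth a) h1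
  calc s a.1 = (permRt h s a).1 := rfl
    _ = jA (t (permRt h s a) : L) := (htj _).symm
    _ = jA (t a : L) := by rw [h2]
    _ = a.1 := htj a

/-- An automorphism over the Galois closure of `E` which fixes the roots of `g` and moves a root of
`h`. -/
theorem exists_pair {h g : ℤ[X]} (hm : h.Monic) (hg : g.Monic) (E : IntermediateField ℚ ℂ)
    [FiniteDimensional ℚ E] {l : ℕ} (hl : l.Prime) (hlE : l ∈ splitPrimes E)
    (hpat : CycPat h l 0) (hsp : SplitPat g l) :
    ∃ s ∈ Gam E, (∀ y : Rt g, s y.1 = y.1) ∧ ∃ y : Rt h, s y.1 ≠ y.1 := by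
  classical
  have hlp : Fact l.Prime := ⟨hl⟩
  have hirr := irreducible_of_pat hm hl hpat
  obtain ⟨θ, hθ⟩ := Field.exists_primitive_element ℚ (gal E)
  let e₀ : gal E →+* ℂ := algebraMap (gal E) ℂ
  let T : Finset ℂ := (((h * g).map (algebraMap ℤ ℂ)).roots.toFinset) ∪ {e₀ θ}
  have hTint : ∀ y : T, IsIntegral ℚ (y : ℂ) := by
    rintro ⟨y, hy⟩
    rcases Finset.mem_union.1 hy with h1 | h1
    · have h3 := (mem_roots'.1 (Multiset.mem_toFinset.1 h1)).2
      rw [IsRoot.def, eval_map] at h3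
      have h4 : IsIntegral ℤ y := ⟨h * g, hm.mul hg, h3⟩
      exact h4.tower_top
    · rw [Finset.mem_singleton] at h1
      subst h1
      have h2 : IsIntegral ℚ θ := Algebra.IsIntegral.isIntegral θ
      exact h2.algebraMap
  obtain ⟨L, hL1, hL2, j, hj⟩ := exists_galois_of_rat (fun y : T => (y : ℂ)) hTint
  obtain ⟨ι, hι⟩ := exists_factor e₀ j θ hθ (hj ⟨e₀ θ, Finset.mem_union.2 (Or.inr (by simp))⟩)
  let _ : Algebra (gal E) L := ι.toAlgebra
  obtain ⟨jA, hjA⟩ := exists_jA j
  have hroots : ∀ y : AA, aeval y (h * g) = 0 → ∃ x : L, jA x = y := by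
    intro y hy
    have h1 : aeval ((y : AA) : ℂ) (h * g) = 0 := by
      have h2 := aeval_algebraMap_apply ℂ y (h * g)
      rw [hy, map_zero] at h2
      exact h2
    obtain ⟨x, hx⟩ := hj ⟨(y : ℂ), Finset.mem_union.2 (Or.inl (by
      rw [Multiset.mem_toFinset, mem_roots (((hm.mul hg).map _).ne_zero), IsRoot.def, eval_map]
      exact h1))⟩
    exact ⟨x, Subtype.ext ((hjA x).trans hx)⟩
  obtain ⟨k, _, hchar, φ, σ, hσ⟩ := exists_frob L l hl
  obtain ⟨s, hs⟩ := lift_exists jA σ
  obtain ⟨A, h1, h2, h3⟩ := cyc_frob hm hirr jA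
    (fun y hy => hroots y (by rw [map_mul, hy, zero_mul])) hpat φ σ hσ s hs
  refine ⟨s, ?_, fun y => ?_, ?_⟩
  · intro y hy
    have h1 : y = jA (algebraMap (gal E) L ⟨(y : ℂ), hy⟩) :=
      Subtype.ext (((hjA _).trans (hι ⟨(y : ℂ), hy⟩)).symm)
    rw [h1, hs, trivial_on hlE ⟨k, inferInstance, hchar, φ, hσ⟩]
  · exact split_frob hg jA (fun y hy => hroots y (by rw [map_mul, hy, mul_zero])) hsp φ σ hσ s hs y
  · -- a moved root
    rw [Finset.card_eq_zero] at h1
    subst h1
    by_contra hcon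
    push Not at hcon
    have hfin : Fintype (Rt h) := @Fintype.ofFinite _ (finite_rt hm)
    have hcard : Fintype.card (Rt h) = h.natDegree := card_rt hm hirr
    obtain ⟨u, T', hu, hdeg, hT', hfac⟩ := hpat
    have hd : 2 ≤ h.natDegree := by
      rw [Finset.card_eq_zero] at hT'
      subst hT'
      rw [Finset.prod_empty, mul_one] at hfac
      rw [← hm.natDegree_map (Int.castRingHom (ZMod l)), hfac]
      exact hdeg
    have hone : 1 < Fintype.card (Rt h) := by omega
    obtain ⟨a, b, hab⟩ := Fintype.one_lt_card_iff.1 hone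
    obtain ⟨m, hm'⟩ := h3 a (Finset.notMem_empty a) b (Finset.notMem_empty b)
    apply hab
    rw [← hm']
    have hfix : ∀ m : ℕ, (permRt h s ^ m) a = a := by
      intro m
      induction m with
      | zero => rfl
      | succ m ih =>
        rw [pow_succ', Equiv.Perm.mul_apply, ih]
        exact Subtype.ext (hcon a)
    exact (hfix m).symm

end Pool.Agent.N750.HJ
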