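import Mathlib
import Pool.Agent.N750.HJ.Gj
import Pool.Agent.N750.HJ.Dg

/-!
# Number fields inside the complex numbers, and the transport of automorphisms
-/

set_option autoImplicit false

namespace Pool.Agent.N750.HJ

open Polynomial NumberField Pool.Agent.N205.SD Pool.Agent.W484.TB Pool.Agent.W521.Density

/-- The number fields inside the complex numbers. -/
def NF : Type := {E : IntermediateField ℚ ℂ // FiniteDimensional ℚ E}

theorem exists_gen (E : IntermediateField ℚ ℂ) (h : FiniteDimensional ℚ E) :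
    ∃ z : ℂ, IsAlgebraic ℚ z ∧ IntermediateField.adjoin ℚ {z} = E := by
  obtain ⟨α, hα⟩ := Field.exists_primitive_element ℚ E
  refine ⟨α, ?_, ?_⟩
  · exact (Algebra.IsAlgebraic.isAlgebraic (R := ℚ) α).algebraMap (A := ℂ)
  · have h1 := IntermediateField.lift_adjoin_simple ℚ E α
    exact (h1.symm.trans (congrArg _ hα)).trans (IntermediateField.lift_top ℚ E)

instance countable_nf : Countable NF := by
  have h1 : Countable {z : ℂ | IsAlgebraic ℚ z} := (Algebraic.countable ℚ ℂ).to_subtype
  choose z hz hE using fun E : NF => exists_gen E.1 E.2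
  have h2 : Function.Injective (fun E : NF => (⟨z E, hz E⟩ : {z : ℂ | IsAlgebraic ℚ z})) := by
    intro E E' h
    have h3 : z E = z E' := congrArg Subtype.val h
    apply Subtype.ext
    rw [← hE E, ← hE E', h3]
  exact h2.countable

section transport

variable {M : Type*} [Field M] [NumberField M]

/-- The image of a number field. -/
noncomputable def img (e : M →+* ℂ) : IntermediateField ℚ ℂ := e.toRatAlgHom.fieldRange

theorem mem_img (e : M →+* ℂ) (m : M) : e m ∈ img e := ⟨m, rfl⟩

theorem img_fd (e : M →+* ℂ) : FiniteDimensional ℚ (img e) := by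
  have h1 : Function.Surjective (e.toRatAlgHom.rangeRestrict) := AlgHom.rangeRestrict_surjective _
  exact Module.Finite.of_surjective (e.toRatAlgHom.rangeRestrict).toLinearMap h1

theorem exists_eA (e : M →+* ℂ) : ∃ eA : M →+* AA, ∀ m, ((eA m : AA) : ℂ) = e m := by
  have h : ∀ x, e.toRatAlgHom x ∈ AA.toSubalgebra := by
    intro x
    change e.toRatAlgHom x ∈ AA
    rw [mem_algebraicClosure_iff]
    have h1 : IsAlgebraic ℚ x := Algebra.IsAlgebraic.isAlgebraic _
    exact h1.algHom e.toRatAlgHom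
  exact ⟨(e.toRatAlgHom.codRestrict AA.toSubalgebra h : M →ₐ[ℚ] AA).toRingHom, fun x => rfl⟩

variable {K F : Type*} [Field K] [Field F] [Algebra K M] [Algebra M F] [Algebra K F]
  [IsScalarTower K M F] [IsAlgClosure M F]

variable (K F) in
/-- The automorphisms which are trivial on the Galois closure act on every algebraic closure. -/
theorem exists_transport (e : M →+* ℂ) : ∃ φ : AA ≃+* F, ∀ σ ∈ Gam (img e),
    ∃ s : F ≃ₐ[K] F, (∀ y, s (φ y) = φ (σ y)) ∧ ∀ m : M, s (algebraMap M F m) = algebraMap M F m := by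
  obtain ⟨eA, heA⟩ := exists_eA e
  let _ : Algebra M AA := eA.toAlgebra
  have hcl : IsAlgClosed AA := (algebraicClosure.isAlgClosure ℚ ℂ).isAlgClosed
  have htower : IsScalarTower ℚ M AA := IsScalarTower.of_algebraMap_eq' (RingHom.ext_rat _ _)
  have halgQ : Algebra.IsAlgebraic ℚ AA := (algebraicClosure.isAlgClosure ℚ ℂ).isAlgebraic
  have halg : Algebra.IsAlgebraic M AA := Algebra.IsAlgebraic.tower_top (K := ℚ) M
  have hcl' : IsAlgClosure M AA := ⟨hcl, halg⟩
  let φ : AA ≃ₐ[M] F := IsAlgClosure.equiv M AA F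
  refine ⟨φ.toRingEquiv, fun σ hσ => ?_⟩
  have hfix : ∀ m : M, σ (algebraMap M AA m) = algebraMap M AA m := by
    intro m
    refine hσ _ ?_
    have h1 : ((algebraMap M AA m : AA) : ℂ) = e m := heA m
    rw [h1]
    have hfd := img_fd e
    exact le_gal (img e) (mem_img e m)
  let r : F ≃+* F := (φ.toRingEquiv.symm.trans (σ : AA ≃+* AA)).trans φ.toRingEquiv
  have hr : ∀ m : M, r (algebraMap M F m) = algebraMap M F m := by
    intro m
    change φ (σ (φ.symm (algebraMap M F m))) = _
    rw [AlgEquiv.commutes, hfix, AlgEquiv.commutes]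
  refine ⟨AlgEquiv.ofRingEquiv (f := r) ?_, fun y => ?_, fun m => hr m⟩
  · intro k
    rw [IsScalarTower.algebraMap_apply K M F]
    exact hr _
  · change φ (σ (φ.symm (φ y))) = φ (σ y)
    rw [AlgEquiv.symm_apply_apply]

end transport

section final

variable {ι : Type} [Fintype ι] [DecidableEq ι] (n : ι → ℕ)

/-- **One exceptional set for all number fields.** -/
theorem exists_set (hn : ∀ i, 3 ≤ n i) :
    ∃ E : Set ((Σ i, Fin (n i)) → ℤ), Thin2 E ∧ ∀ E₀ : IntermediateField ℚ ℂ,
      ∀ _ : FiniteDimensional ℚ E₀, ∃ C : ℕ, ∀ x ∉ E, (∃ s, (C : ℤ) < |x s|) →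
        GoodJ (splitPrimes E₀) n x := by
  classical
  obtain ⟨E, hE, h1⟩ := diagonal (J := NF) (fun E₀ : NF => {x | ¬ GoodJ (haveI := E₀.2; splitPrimes E₀.1) n x})
    (fun E₀ => haveI := E₀.2; thin_bad n (dense_splitPrimes E₀.1) hn)
  refine ⟨E, hE, fun E₀ hE₀ => ?_⟩
  obtain ⟨C, hC⟩ := h1 ⟨E₀, hE₀⟩
  refine ⟨C, fun x hx hs => ?_⟩
  by_contra hcon
  exact hx (hC x hcon hs)

end final

end Pool.Agent.N750.HJ
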