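import Mathlib
import Pool.Agent.N750.HJ.Tr

/-!
# The transport of automorphisms to fields which are not algebraic
-/

set_option autoImplicit false

namespace Pool.Agent.N750.HJ

open Polynomial NumberField Pool.Agent.N205.SD Pool.Agent.W484.TB Pool.Agent.W521.Density

/-- Automorphisms of a Galois extension `L` of `M₀` extend to automorphisms of the algebraic closure
of a field `M` in which `M₀` is algebraically closed. -/
theorem extend_aut {M₀ L M F : Type*} [Field M₀] [CharZero M₀] [Field L] [Field M] [Field F] [Algebra M₀ L]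
    [FiniteDimensional M₀ L] [IsGalois M₀ L] [Algebra M₀ M] [Algebra M F] [IsAlgClosure M F]
    (φ : L →+* F) (hφ : ∀ m : M₀, φ (algebraMap M₀ L m) = algebraMap M F (algebraMap M₀ M m))
    (hM : ∀ y : M, IsAlgebraic M₀ y → y ∈ Set.range (algebraMap M₀ M)) (σ : L ≃ₐ[M₀] L) :
    ∃ s : F ≃ₐ[M] F, ∀ y : L, s (φ y) = φ (σ y) := by
  let _ : Algebra L F := φ.toAlgebra
  let _ : Algebra M₀ F := ((algebraMap M F).comp (algebraMap M₀ M)).toAlgebra
  have ht : IsScalarTower M₀ M F := IsScalarTower.of_algebraMap_eq' rfl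
  have ht' : IsScalarTower M₀ L F := IsScalarTower.of_algebraMap_eq fun m => (hφ m).symm
  have hcl : IsAlgClosed F := IsAlgClosure.isAlgClosed M
  have halg : Algebra.IsAlgebraic M F := IsAlgClosure.isAlgebraic
  have hM0 : CharZero M := charZero_of_injective_algebraMap (algebraMap M₀ M).injective
  have hgal : IsGalois M F := inferInstance
  let r : (F ≃ₐ[M] F) →* (L ≃ₐ[M₀] L) :=
    { toFun := fun s => (s.restrictScalars M₀).restrictNormal L
      map_one' := by
        ext y
        apply (algebraMap L F).injective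
        rw [AlgEquiv.restrictNormal_commutes]
        rfl
      map_mul' := fun s t => by
        ext y
        apply (algebraMap L F).injective
        rw [AlgEquiv.restrictNormal_commutes, AlgEquiv.mul_apply, AlgEquiv.restrictNormal_commutes,
          AlgEquiv.restrictNormal_commutes]
        rfl }
  have hr : ∀ (s : F ≃ₐ[M] F) (y : L), algebraMap L F (r s y) = s (algebraMap L F y) := fun s y =>
    AlgEquiv.restrictNormal_commutes (s.restrictScalars M₀) L y
  have htop : r.range = ⊤ := by
    have h1 : IntermediateField.fixedField r.range = ⊥ := by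
      rw [eq_bot_iff]
      intro y hy
      have h2 : ∀ s : F ≃ₐ[M] F, s (algebraMap L F y) = algebraMap L F y := by
        intro s
        rw [← hr]
        congr 1
        exact hy ⟨r s, ⟨s, rfl⟩⟩
      have h3 : algebraMap L F y ∈ (⊥ : IntermediateField M F) := by
        rw [InfiniteGalois.mem_bot_iff_fixed]
        exact h2
      obtain ⟨m, hm⟩ := IntermediateField.mem_bot.1 h3
      have h4 : IsAlgebraic M₀ m := by
        have h5 : IsAlgebraic M₀ (algebraMap L F y) :=
          (Algebra.IsAlgebraic.isAlgebraic (R := M₀) y).algebraMap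
        rw [← hm] at h5
        exact (isAlgebraic_algebraMap_iff (algebraMap M F).injective).1 h5
      obtain ⟨m₀, hm₀⟩ := hM m h4
      rw [IntermediateField.mem_bot]
      refine ⟨m₀, ?_⟩
      apply (algebraMap L F).injective
      rw [← hm, ← hm₀]
      exact hφ m₀
    have h2 := IntermediateField.fixingSubgroup_fixedField r.range
    rw [h1, IntermediateField.fixingSubgroup_bot] at h2
    exact h2.symm
  obtain ⟨s, hs⟩ : σ ∈ r.range := by
    rw [htop]
    exact Subgroup.mem_top _
  refine ⟨s, fun y => ?_⟩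
  rw [← hs]
  exact (hr s y).symm

section

variable {M₀ M : Type*} [Field M₀] [NumberField M₀] [Field M] [Algebra M₀ M]
variable {K F : Type*} [Field K] [Field F] [Algebra K M] [Algebra M F] [Algebra K F]
  [IsScalarTower K M F] [IsAlgClosure M F]

variable (K F) in
/-- The automorphisms which are trivial on the Galois closure of `M₀` act on the roots of `h` as
automorphisms of the algebraic closure over `M`. -/
theorem exists_transport' (hM : ∀ y : M, IsAlgebraic M₀ y → y ∈ Set.range (algebraMap M₀ M))
    (e : M₀ →+* ℂ) (h : ℤ[X]) (h0 : h ≠ 0) :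
    ∃ φ : AA →+* F, ∀ σ ∈ Gam (img e), ∃ s : F ≃ₐ[K] F,
      (∀ y, aeval y h = 0 → s (φ y) = φ (σ y)) ∧
        ∀ m : M, s (algebraMap M F m) = algebraMap M F m := by
  classical
  obtain ⟨eA, heA⟩ := exists_eA e
  let _ : Algebra M₀ AA := eA.toAlgebra
  have hcl : IsAlgClosed AA := (algebraicClosure.isAlgClosure ℚ ℂ).isAlgClosed
  have htower : IsScalarTower ℚ M₀ AA := IsScalarTower.of_algebraMap_eq' (RingHom.ext_rat _ _)
  have halgQ : Algebra.IsAlgebraic ℚ AA := (algebraicClosure.isAlgClosure ℚ ℂ).isAlgebraic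
  have halg : Algebra.IsAlgebraic M₀ AA := Algebra.IsAlgebraic.tower_top (K := ℚ) M₀
  have hclF : IsAlgClosed F := IsAlgClosure.isAlgClosed M
  let _ : Algebra M₀ F := ((algebraMap M F).comp (algebraMap M₀ M)).toAlgebra
  let φ : AA →ₐ[M₀] F := IsAlgClosed.lift
  refine ⟨φ.toRingHom, fun σ hσ => ?_⟩
  have hfix : ∀ m : M₀, σ (algebraMap M₀ AA m) = algebraMap M₀ AA m := by
    intro m
    refine hσ _ ?_
    have h1 : ((algebraMap M₀ AA m : AA) : ℂ) = e m := heA m
    rw [h1]
    have hfd := img_fd e
    exact le_gal (img e) (mem_img e m)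
  let σ' : AA ≃ₐ[M₀] AA := AlgEquiv.ofRingEquiv (f := (σ : AA ≃+* AA)) hfix
  -- the splitting field
  set p : M₀[X] := h.map (algebraMap ℤ M₀) with hp
  have hsp : (p.map (algebraMap M₀ AA)).Splits := IsAlgClosed.splits _
  let L : IntermediateField M₀ AA := IntermediateField.adjoin M₀ (p.rootSet AA)
  have hL : IsSplittingField M₀ L p := IntermediateField.adjoin_rootSet_isSplittingField hsp
  have hfd : FiniteDimensional M₀ L := IsSplittingField.finiteDimensional L p
  have hn : Normal M₀ L := Normal.of_isSplittingField p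
  have hg : IsGalois M₀ L := ⟨⟩
  obtain ⟨s, hs⟩ := extend_aut (M := M) (F := F) ((φ : AA →+* F).comp (algebraMap L AA)) (fun m => by
    change φ (algebraMap M₀ AA m) = _
    rw [AlgHom.commutes]
    rfl) hM (σ'.restrictNormal L)
  refine ⟨s.restrictScalars K, fun y hy => ?_, fun m => s.commutes m⟩
  have hyL : y ∈ L := by
    refine IntermediateField.subset_adjoin _ _ ?_
    rw [mem_rootSet]
    refine ⟨?_, ?_⟩
    · rw [hp]
      exact (Polynomial.map_ne_zero_iff (algebraMap ℤ M₀).injective_int).2 h0
    · rw [hp, aeval_map_algebraMap]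
      exact hy
  have h1 := hs ⟨y, hyL⟩
  have h2 : algebraMap L AA (σ'.restrictNormal L ⟨y, hyL⟩) = σ y :=
    AlgEquiv.restrictNormal_commutes σ' L ⟨y, hyL⟩
  change s (φ y) = φ (σ y)
  rw [← h2]
  exact h1

end

end Pool.Agent.N750.HJ
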