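import Mathlib
import Pool.Agent.N750.HJ.Tr2
import Pool.Agent.N750.HJ.Gp

/-!
# Splitting fields, and one exceptional set of polynomials
-/

set_option autoImplicit false

namespace Pool.Agent.N750.HJ

open Polynomial NumberField Pool.Agent.N205.SD Pool.Agent.W484.TB Pool.Agent.W521.Density

/-- The splitting field of `f` in the complex numbers. -/
noncomputable def spl (f : ℤ[X]) : IntermediateField ℚ ℂ :=
  IntermediateField.adjoin ℚ (f.rootSet ℂ)

theorem mem_AA_of_root (f : ℤ[X]) (hf : f ≠ 0) (z : ℂ) (hz : aeval z f = 0) : z ∈ AA := by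
  rw [mem_algebraicClosure_iff]
  have h2 : IsAlgebraic ℤ z := ⟨f, hf, hz⟩
  exact h2.extendScalars (algebraMap ℤ ℚ).injective_int

theorem spl_le (f g : ℤ[X]) (hf : f ≠ 0) (hg : g ≠ 0) (h : (permRt g).ker ≤ (permRt f).ker) :
    spl f ≤ spl g := by
  have hcl : IsAlgClosed AA := (algebraicClosure.isAlgClosure ℚ ℂ).isAlgClosed
  have hclo : IsAlgClosure ℚ AA := algebraicClosure.isAlgClosure ℚ ℂ
  have hgal : IsGalois ℚ AA := inferInstance
  unfold spl
  rw [IntermediateField.adjoin_le_iff]
  intro z hz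
  rw [mem_rootSet] at hz
  have hzA := mem_AA_of_root f hf z hz.2
  have hroot : aeval (⟨z, hzA⟩ : AA) f = 0 := by
    have h3 := aeval_algebraMap_apply ℂ (⟨z, hzA⟩ : AA) f
    apply (algebraMap AA ℂ).injective
    rw [map_zero]
    exact h3.symm.trans hz.2
  set S : Set AA := {y | aeval y g = 0} with hS
  have h3 : (IntermediateField.adjoin ℚ S).fixingSubgroup ≤ (permRt g).ker := by
    intro σ hσ
    rw [MonoidHom.mem_ker]
    refine Equiv.ext fun y => Subtype.ext ?_
    exact hσ ⟨y.1, IntermediateField.subset_adjoin _ _ y.2⟩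
  have h4 : (⟨z, hzA⟩ : AA) ∈ IntermediateField.adjoin ℚ S := by
    rw [← InfiniteGalois.fixedField_fixingSubgroup (IntermediateField.adjoin ℚ S)]
    rintro ⟨σ, hσ⟩
    have h5 := h (h3 hσ)
    rw [MonoidHom.mem_ker] at h5
    have h6 : (permRt f σ ⟨⟨z, hzA⟩, hroot⟩).1 = σ ⟨z, hzA⟩ := rfl
    rw [h5] at h6
    exact h6.symm
  have h5 : ∀ y ∈ IntermediateField.adjoin ℚ S, ((y : AA) : ℂ) ∈
      IntermediateField.adjoin ℚ (g.rootSet ℂ) := by
    intro y hy
    induction hy using IntermediateField.adjoin_induction with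
    | mem x hx =>
      refine IntermediateField.subset_adjoin _ _ ?_
      rw [mem_rootSet]
      refine ⟨hg, ?_⟩
      have h3 := aeval_algebraMap_apply ℂ x g
      have h4 : aeval x g = 0 := hx
      rw [h4, map_zero] at h3
      exact h3
    | algebraMap q =>
      have h6 : ((algebraMap ℚ AA q : AA) : ℂ) = algebraMap ℚ ℂ q := by
        exact RingHom.congr_fun (RingHom.ext_rat ((algebraMap AA ℂ).comp (algebraMap ℚ AA))
          (algebraMap ℚ ℂ)) q
      rw [h6]
      exact IntermediateField.algebraMap_mem _ q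
    | add x y _ _ hx hy => exact add_mem hx hy
    | inv x _ hx => exact inv_mem hx
    | mul x y _ _ hx hy => exact mul_mem hx hy
  exact h5 _ h4

/-- An automorphism which is trivial on the Galois closure of `E` and on the roots of `g`, and moves
a root of `f`. -/
theorem exists_notIn {f g : ℤ[X]} (hf : f.Monic) (hg : g.Monic) (E : IntermediateField ℚ ℂ)
    [FiniteDimensional ℚ E] (h5 : 5 ≤ f.natDegree) (h5' : 5 ≤ g.natDegree)
    (hpf : FullPat (splitPrimes E) f) (hpg : FullPat (splitPrimes E) g) (hne : spl f ≠ spl g) :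
    ∃ s ∈ Gam E, (∀ y : Rt g, s y.1 = y.1) ∧ ∃ y : Rt f, s y.1 ≠ y.1 := by
  classical
  by_contra hcon
  push Not at hcon
  have hfin : Fintype (Rt f) := @Fintype.ofFinite _ (finite_rt hf)
  have hfin' : Fintype (Rt g) := @Fintype.ofFinite _ (finite_rt hg)
  have htop := top_of_full hf E (by omega) hpf
  have htop' := top_of_full hg E (by omega) hpg
  have hcard : Fintype.card (Rt f) = f.natDegree := by
    obtain ⟨⟨l, hl, -, hp⟩, -, -⟩ := hpf
    exact card_rt hf (irreducible_of_pat hf hl hp)
  have hcard' : Fintype.card (Rt g) = g.natDegree := by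
    obtain ⟨⟨l, hl, -, hp⟩, -, -⟩ := hpg
    exact card_rt hg (irreducible_of_pat hg hl hp)
  have hsurj : Function.Surjective (permRt f) := by
    intro π
    obtain ⟨σ, -, hσ⟩ : π ∈ (Gam E).map (permRt f) := by
      rw [htop]
      exact Subgroup.mem_top _
    exact ⟨σ, hσ⟩
  have hsurj' : Function.Surjective (permRt g) := by
    intro π
    obtain ⟨σ, -, hσ⟩ : π ∈ (Gam E).map (permRt g) := by
      rw [htop']
      exact Subgroup.mem_top _
    exact ⟨σ, hσ⟩
  have h1 : Gam E ⊓ (permRt g).ker ≤ (permRt f).ker := by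
    rintro σ ⟨hσ, hσg⟩
    have h2 := hcon σ hσ (fun y => by
      have h4 : (permRt g σ y).1 = σ y.1 := rfl
      have h5 : permRt g σ = 1 := hσg
      rw [h5] at h4
      exact h4.symm)
    rw [MonoidHom.mem_ker]
    exact Equiv.ext fun y => Subtype.ext (h2 y)
  have h2 := le_ker_of_inf (by omega) (permRt f) (Gam E) (permRt g).ker (gam_normal E)
    inferInstance htop h1
  have h3 := ker_le_of_ker_le (by omega) (by omega) (permRt f) (permRt g) hsurj hsurj' h2
  exact hne (le_antisymm (spl_le f g hf.ne_zero hg.ne_zero h2)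
    (spl_le g f hg.ne_zero hf.ne_zero h3))

end Pool.Agent.N750.HJ
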