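import Mathlib
import Pool.Agent.N750.HJ.Fx

/-!
# One exceptional set of polynomials
-/

set_option autoImplicit false

namespace Pool.Agent.N750.HJ

open Polynomial NumberField Pool.Agent.N205.SD Pool.Agent.W484.TB Pool.Agent.W521.Density

/-- the coefficient vector -/
def cv (m : ℕ) (f : ℤ[X]) : (Σ _ : Unit, Fin m) → ℤ := fun s => f.coeff s.2

theorem polys_cv {m : ℕ} {f : ℤ[X]} (hf : f.Monic) (hm : f.natDegree = m) :
    polys (fun _ : Unit => m) (cv m f) () = f := by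
  unfold polys
  exact eq_mkPoly hf hm

theorem exists_set' :
    ∃ E : Set ℤ[X], (∀ m : ℕ, 3 ≤ m → ∃ A : ℝ, ∀ H : ℕ, 2 ≤ H →
      (Nat.card {f : ℤ[X] // f ∈ E ∧ f.Monic ∧ f.natDegree = m ∧ ∀ k < m, |f.coeff k| ≤ H} : ℝ) ≤
        A * Real.log H ^ 2 * (H : ℝ) ^ ((m : ℝ) - 1 / 3)) ∧
    ∀ E₀ : IntermediateField ℚ ℂ, ∀ _ : FiniteDimensional ℚ E₀, ∃ C : ℕ → ℕ, ∀ f : ℤ[X],
      f ∉ E → f.Monic → 3 ≤ f.natDegree →
        (∃ k < f.natDegree, (C f.natDegree : ℤ) < |f.coeff k|) → FullPat (splitPrimes E₀) f := by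
  classical
  have h0 : ∀ m : ℕ, ∃ E : Set ((Σ _ : Unit, Fin m) → ℤ), 3 ≤ m → (Thin2 E ∧
      ∀ E₀ : IntermediateField ℚ ℂ, ∀ _ : FiniteDimensional ℚ E₀, ∃ C : ℕ, ∀ x ∉ E,
        (∃ s, (C : ℤ) < |x s|) → GoodJ (splitPrimes E₀) (fun _ : Unit => m) x) := by
    intro m
    by_cases hm : 3 ≤ m
    · obtain ⟨E, h1, h2⟩ := exists_set (fun _ : Unit => m) (fun _ => hm)
      exact ⟨E, fun _ => ⟨h1, h2⟩⟩
    · exact ⟨∅, fun h => absurd h hm⟩
  choose E hE using h0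
  refine ⟨{f | cv f.natDegree f ∈ E f.natDegree}, ?_, ?_⟩
  · intro m hm
    obtain ⟨A, hA, h1⟩ := (hE m hm).1
    refine ⟨A, fun H hH => ?_⟩
    have h2 := h1 H hH
    have hH0 : (0 : ℝ) < H := by exact_mod_cast (by omega : 0 < H)
    have hrt : rt (Σ _ : Unit, Fin m) H = (H : ℝ) ^ ((m : ℝ) - 1 / 3) := by
      unfold rt
      have hcard : Fintype.card (Σ _ : Unit, Fin m) = m := by
        rw [Fintype.card_sigma]
        simp
      rw [hcard, sub_eq_add_neg, Real.rpow_add hH0, Real.rpow_natCast]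
      ring
    rw [hrt] at h2
    refine le_trans ?_ h2
    have h3 : Nat.card {f : ℤ[X] // f ∈ {f : ℤ[X] | cv f.natDegree f ∈ E f.natDegree} ∧ f.Monic ∧
        f.natDegree = m ∧ ∀ k < m, |f.coeff k| ≤ H} ≤ cnt (E m) H := by
      have hfin := finite_cube (E m) H
      unfold cnt
      refine Nat.card_le_card_of_injective (fun f => ⟨cv m f.1, ?_, fun s => ?_⟩) ?_
      · obtain ⟨f, hf1, hf2, hf3, hf4⟩ := f
        subst hf3
        exact hf1
      · exact f.2.2.2.2 s.2 s.2.2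
      · intro f g hfg
        have h4 : cv m f.1 = cv m g.1 := congrArg Subtype.val hfg
        apply Subtype.ext
        rw [← polys_cv f.2.2.1 f.2.2.2.1, ← polys_cv g.2.2.1 g.2.2.2.1, h4]
    exact_mod_cast h3
  · intro E₀ hE₀
    have h1 : ∀ m : ℕ, ∃ C : ℕ, 3 ≤ m → ∀ x ∉ E m, (∃ s, (C : ℤ) < |x s|) →
        GoodJ (splitPrimes E₀) (fun _ : Unit => m) x := by
      intro m
      by_cases hm : 3 ≤ m
      · obtain ⟨C, hC⟩ := (hE m hm).2 E₀ hE₀
        exact ⟨C, fun _ => hC⟩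
      · exact ⟨0, fun h => absurd h hm⟩
    choose C hC using h1
    refine ⟨C, fun f hf hm h3 hk => ?_⟩
    obtain ⟨k, hk, hkC⟩ := hk
    have h2 := (hC f.natDegree h3 (cv f.natDegree f) hf ⟨⟨(), ⟨k, hk⟩⟩, hkC⟩).1 ()
    rwa [polys_cv hm rfl] at h2

end Pool.Agent.N750.HJ
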