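import Mathlib
import Pool.Agent.N750.HJ.Ps
import Pool.Agent.N750.HJ.Lg

/-!
# The Galois groups of families of good polynomials over all fields
-/

set_option autoImplicit false

namespace Pool.Agent.N750.HJ

open Polynomial NumberField Pool.Agent.N205.SD Pool.Agent.W484.TB Pool.Agent.W521.Density
  Pool.Agent.N171

section

variable {M₀ M : Type*} [Field M₀] [NumberField M₀] [Field M] [Algebra M₀ M]
variable {K F : Type*} [Field K] [Field F] [Algebra K M] [Algebra M F] [Algebra K F]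
  [IsScalarTower K M F] [IsAlgClosure M F]

theorem mem_rootSet_map {f : ℤ[X]} (hf : f.Monic) (z : F) :
    z ∈ (f.map (Int.castRingHom K)).rootSet F ↔ aeval z f = 0 := by
  rw [mem_rootSet]
  have h1 : aeval z (f.map (Int.castRingHom K)) = aeval z f := aeval_map_algebraMap K z _
  rw [h1]
  constructor
  · exact fun h => h.2
  · exact fun h => ⟨(hf.map _).ne_zero, h⟩

theorem hypP_map [CharZero K] (U : Set ℕ) {f : ℤ[X]} (hm : f.Monic)
    (hodd : Odd f.natDegree) (hx : FullPat U f) : HypP (f.map (Int.castRingHom K)) := by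
  obtain ⟨⟨l, hl, -, hp⟩, -, -⟩ := hx
  have hirr := irreducible_of_pat hm hl hp
  have hsep := hirr.separable.map (f := algebraMap ℚ K)
  rw [Polynomial.map_map, RingHom.ext_int ((algebraMap ℚ K).comp (Int.castRingHom ℚ))
    (Int.castRingHom K)] at hsep
  refine ⟨hm.map _, hsep, ?_, two_ne_zero⟩
  rw [hm.natDegree_map]
  exact hodd

/-- **Good polynomials.** -/
theorem main_data' {ι : Type*} [Finite ι] (hM : ∀ y : M, IsAlgebraic M₀ y → y ∈ Set.range (algebraMap M₀ M))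
    [CharZero F] (e : M₀ →+* ℂ) (f : ι → ℤ[X]) (hm : ∀ i, (f i).Monic) (hn : ∀ i, 5 ≤ (f i).natDegree)
    (hx : haveI := img_fd e; ∀ i, FullPat (splitPrimes (img e)) (f i))
    (hne : ∀ i j, i ≠ j → spl (f i) ≠ spl (f j)) :
    (∀ i, BigGal ((f i).map (Int.castRingHom K)) F) ∧
    (∀ i j, j ≠ i → NotIn ((f i).map (Int.castRingHom K)) ((f j).map (Int.castRingHom K)) F) ∧
    ∀ i, ∃ s : F ≃ₐ[K] F, (∀ m : M, s (algebraMap M F m) = algebraMap M F m) ∧
      ∃ z ∈ ((f i).map (Int.castRingHom K)).rootSet F, s z ≠ z := by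
  classical
  have hft := Fintype.ofFinite ι
  have hfd := img_fd e
  have hclA : IsAlgClosed AA := (algebraicClosure.isAlgClosure ℚ ℂ).isAlgClosed
  set h : ℤ[X] := ∏ i, f i with hh
  have hhm : h.Monic := monic_prod_of_monic _ _ fun i _ => hm i
  obtain ⟨φ, hφ⟩ := exists_transport' K F hM e h hhm.ne_zero
  have hroot : ∀ i, ∀ y : AA, aeval y (f i) = 0 → aeval y h = 0 := by
    intro i y hy
    rw [hh, map_prod]
    exact Finset.prod_eq_zero (Finset.mem_univ i) hy
  -- the roots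
  have hφr : ∀ i, ∀ y : AA, aeval y (f i) = 0 → aeval (φ y) (f i) = 0 := by
    intro i y hy
    have h2 := Polynomial.hom_eval₂ (f i) (algebraMap ℤ AA) φ y
    rw [RingHom.ext_int (φ.comp (algebraMap ℤ AA)) (algebraMap ℤ F)] at h2
    have h3 : eval₂ (algebraMap ℤ AA) y (f i) = 0 := hy
    rw [h3, map_zero] at h2
    exact h2.symm
  have hsurj : ∀ i, ∀ z : F, aeval z (f i) = 0 → ∃ y : AA, aeval y (f i) = 0 ∧ φ y = z := by
    intro i z hz
    have h1 : ((((f i).map (algebraMap ℤ AA))).map φ).IsRoot z := by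
      rw [IsRoot.def, eval_map, eval₂_map, RingHom.ext_int (φ.comp (algebraMap ℤ AA))
        (algebraMap ℤ F)]
      exact hz
    have h0 : ((f i).map (algebraMap ℤ AA)) ≠ 0 := ((hm i).map _).ne_zero
    let _ : Algebra AA F := φ.toAlgebra
    obtain ⟨y, hy⟩ := (IsAlgClosed.splits ((f i).map (algebraMap ℤ AA))).mem_range_of_isRoot
      h0 h1
    refine ⟨y, ?_, hy⟩
    have h2 : φ (eval₂ (algebraMap ℤ AA) y (f i)) = 0 := by
      rw [Polynomial.hom_eval₂, RingHom.ext_int (φ.comp (algebraMap ℤ AA)) (algebraMap ℤ F)]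
      have h3 : φ y = z := hy
      rw [h3]
      exact hz
    exact (map_eq_zero φ).1 h2
  -- the bijection of the roots
  let ε : ∀ i, Rt (f i) ≃ ((f i).map (Int.castRingHom K)).rootSet F := fun i =>
    Equiv.ofBijective (fun y => ⟨φ y.1, (mem_rootSet_map (hm i) _).2 (hφr i y.1 y.2)⟩) (by
      constructor
      · intro y y' hyy
        exact Subtype.ext (φ.injective (congrArg Subtype.val hyy))
      · rintro ⟨z, hz⟩
        obtain ⟨y, hy, hyz⟩ := hsurj i z ((mem_rootSet_map (hm i) z).1 hz)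
        exact ⟨⟨y, hy⟩, Subtype.ext hyz⟩)
  have hε : ∀ i (y : Rt (f i)), ((ε i y : ((f i).map (Int.castRingHom K)).rootSet F) : F) = φ y.1 :=
    fun i y => rfl
  have htop : ∀ i, (Gam (img e)).map (permRt (f i)) = ⊤ := fun i =>
    top_of_full (hm i) (img e) (by have := hn i; omega) (hx i)
  refine ⟨fun i π _ => ?_, fun i j hij => ?_, fun i => ?_⟩
  · -- the symmetric group
    let π' : Equiv.Perm (Rt (f i)) := (ε i).trans (π.trans (ε i).symm)
    obtain ⟨σ, hσ, hσπ⟩ : π' ∈ (Gam (img e)).map (permRt (f i)) := by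
      rw [htop]
      exact Subgroup.mem_top _
    obtain ⟨s, hs, -⟩ := hφ σ hσ
    refine ⟨s, fun z => ?_⟩
    obtain ⟨y, rfl⟩ := (ε i).surjective z
    rw [hε, hs y.1 (hroot i y.1 y.2)]
    have h1 : (permRt (f i) σ y).1 = σ y.1 := rfl
    rw [← h1, hσπ, ← hε]
    congr 1
    exact (ε i).apply_symm_apply _
  · obtain ⟨σ, hσ, h1, y, hy⟩ := exists_notIn (hm i) (hm j) (img e) (hn i) (hn j) (hx i) (hx j)
      (hne i j (Ne.symm hij))
    obtain ⟨s, hs, -⟩ := hφ σ hσ
    refine ⟨s, fun z hz => ?_, φ y.1, ?_, ?_⟩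
    · obtain ⟨w, rfl⟩ : ∃ w : Rt (f j), φ w.1 = z := by
        obtain ⟨w, hw, hwz⟩ := hsurj j z ((mem_rootSet_map (hm j) z).1 hz)
        exact ⟨⟨w, hw⟩, hwz⟩
      rw [hs w.1 (hroot j w.1 w.2), h1 w]
    · exact (mem_rootSet_map (hm i) _).2 (hφr i y.1 y.2)
    · rw [hs y.1 (hroot i y.1 y.2)]
      exact fun hc => hy (φ.injective hc)
  · -- a moved root
    have hcard : 1 < Nat.card (Rt (f i)) := by
      obtain ⟨l, hl, -, hp⟩ := (hx i).1
      have hfin : Fintype (Rt (f i)) := @Fintype.ofFinite _ (finite_rt (hm i))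
      rw [Nat.card_eq_fintype_card, card_rt (hm i) (irreducible_of_pat (hm i) hl hp)]
      have := hn i
      omega
    have hfin : Finite (Rt (f i)) := finite_rt (hm i)
    obtain ⟨a, b, hab⟩ := (Finite.one_lt_card_iff_nontrivial.1 hcard).exists_pair_ne
    obtain ⟨σ, hσ, hσπ⟩ : Equiv.swap a b ∈ (Gam (img e)).map (permRt (f i)) := by
      rw [htop]
      exact Subgroup.mem_top _
    obtain ⟨s, hs, hs'⟩ := hφ σ hσ
    refine ⟨s, hs', φ a.1, (mem_rootSet_map (hm i) _).2 (hφr i a.1 a.2), ?_⟩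
    rw [hs a.1 (hroot i a.1 a.2)]
    intro hc
    have h1 : (permRt (f i) σ a).1 = σ a.1 := rfl
    rw [← h1, hσπ, Equiv.swap_apply_left] at hc
    exact hab (Subtype.ext (φ.injective hc)).symm

end

/-- Polynomials with different splitting fields. -/
theorem spl_ne_of_pat {f g : ℤ[X]} (hf : f.Monic) (hg : g.Monic) {l : ℕ} (hl : l.Prime)
    (hpat : CycPat f l 0) (hsp : SplitPat g l)
    (hU : l ∈ splitPrimes (⊥ : IntermediateField ℚ ℂ)) : spl f ≠ spl g := by
  intro heq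
  obtain ⟨σ, -, h1, y, hy⟩ := exists_pair hf hg (⊥ : IntermediateField ℚ ℂ) hl hU hpat hsp
  apply hy
  have hmem : (y.1 : ℂ) ∈ spl g := by
    rw [← heq]
    refine IntermediateField.subset_adjoin _ _ ?_
    rw [mem_rootSet]
    refine ⟨hf.ne_zero, ?_⟩
    have h3 := aeval_algebraMap_apply ℂ y.1 f
    have h4 : aeval y.1 f = 0 := y.2
    rw [h4, map_zero] at h3
    exact h3
  have h5 : ∀ z ∈ spl g, ∃ hz : z ∈ AA, σ ⟨z, hz⟩ = ⟨z, hz⟩ := by
    intro z hz
    unfold spl at hz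
    induction hz using IntermediateField.adjoin_induction with
    | mem x hx =>
      rw [mem_rootSet] at hx
      have hxA := mem_AA_of_root g hg.ne_zero x hx.2
      refine ⟨hxA, ?_⟩
      have hroot : aeval (⟨x, hxA⟩ : AA) g = 0 := by
        have h3 := aeval_algebraMap_apply ℂ (⟨x, hxA⟩ : AA) g
        apply (algebraMap AA ℂ).injective
        rw [map_zero]
        exact h3.symm.trans hx.2
      exact h1 ⟨⟨x, hxA⟩, hroot⟩
    | algebraMap q =>
      exact ⟨AA.algebraMap_mem q, σ.commutes q⟩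
    | add x y _ _ hx hy =>
      obtain ⟨hx1, hx2⟩ := hx
      obtain ⟨hy1, hy2⟩ := hy
      refine ⟨add_mem hx1 hy1, ?_⟩
      have h1 : (⟨x + y, add_mem hx1 hy1⟩ : AA) = ⟨x, hx1⟩ + ⟨y, hy1⟩ := rfl
      rw [h1, map_add, hx2, hy2]
    | inv x _ hx =>
      obtain ⟨hx1, hx2⟩ := hx
      refine ⟨inv_mem hx1, ?_⟩
      have h1 : (⟨x⁻¹, inv_mem hx1⟩ : AA) = (⟨x, hx1⟩ : AA)⁻¹ := rfl
      rw [h1, map_inv₀, hx2]
    | mul x y _ _ hx hy =>
      obtain ⟨hx1, hx2⟩ := hx
      obtain ⟨hy1, hy2⟩ := hy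
      refine ⟨mul_mem hx1 hy1, ?_⟩
      have h1 : (⟨x * y, mul_mem hx1 hy1⟩ : AA) = ⟨x, hx1⟩ * ⟨y, hy1⟩ := rfl
      rw [h1, map_mul, hx2, hy2]
  obtain ⟨hz, hfix⟩ := h5 _ hmem
  exact hfix

/-- **Almost all families have different splitting fields.** -/
theorem thin_spl {ι : Type} [Fintype ι] (n : ι → ℕ) (hn : ∀ i, 3 ≤ n i) :
    Thin {x : (Σ i, Fin (n i)) → ℤ | ∃ i j, i ≠ j ∧ spl (polys n x i) = spl (polys n x j)} := by
  classical
  have hfd : FiniteDimensional ℚ (⊥ : IntermediateField ℚ ℂ) := inferInstance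
  refine (thin_bad n (dense_splitPrimes (⊥ : IntermediateField ℚ ℂ)) hn).mono ?_
  rintro x ⟨i, j, hij, heq⟩ hx
  obtain ⟨l, hl, hlU, hp, hsp⟩ := hx.2 i j (Ne.symm hij)
  exact spl_ne_of_pat (mkPoly_monic _ _) (mkPoly_monic _ _) hl hp hsp hlU heq

end Pool.Agent.N750.HJ
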