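import Mathlib
import Pool.Agent.N750.HJ.Mn2

/-!
# Counting families of polynomials
-/

set_option autoImplicit false

namespace Pool.Agent.N750.HJ

open Polynomial Pool.Agent.N205.SD Pool.Agent.W484.TB Pool.Agent.W521.Density

/-- the coefficients of a family -/
def cvec' {ι : Type} (n : ι → ℕ) (f : ι → ℤ[X]) : (Σ i, Fin (n i)) → ℤ := fun s => (f s.1).coeff s.2

theorem polys_cvec' {ι : Type} (n : ι → ℕ) (f : ι → ℤ[X])
    (hf : ∀ i, (f i).Monic ∧ (f i).natDegree = n i) : polys n (cvec' n f) = f := by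
  funext i
  have h1 : (fun k : Fin (n i) => cvec' n f ⟨i, k⟩) = fun k : Fin (n i) => (f i).coeff k := rfl
  have h2 : polys n (cvec' n f) i = mkPoly (n i) (fun k : Fin (n i) => cvec' n f ⟨i, k⟩) := rfl
  rw [h2, h1, eq_mkPoly (hf i).1 (hf i).2]

/-- the families of height at most `H` -/
def Bd {ι : Type} (n : ι → ℕ) (H : ℕ) (f : ι → ℤ[X]) : Prop :=
  ∀ i, (f i).Monic ∧ (f i).natDegree = n i ∧ ∀ k < n i, |(f i).coeff k| ≤ H

theorem count_le {ι : Type} [Fintype ι] (n : ι → ℕ) (P : (ι → ℤ[X]) → Prop) (H : ℕ) :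
    Nat.card {f : ι → ℤ[X] // Bd n H f ∧ P f} ≤ cnt {x | P (polys n x)} H := by
  have hfin := finite_cube {x : (Σ i, Fin (n i)) → ℤ | P (polys n x)} H
  have h0 : ∀ f : {f : ι → ℤ[X] // Bd n H f ∧ P f}, polys n (cvec' n f.1) = f.1 := fun f =>
    polys_cvec' n f.1 (fun i => ⟨(f.2.1 i).1, (f.2.1 i).2.1⟩)
  have hmem : ∀ f : {f : ι → ℤ[X] // Bd n H f ∧ P f}, P (polys n (cvec' n f.1)) := by
    intro f
    rw [h0 f]
    exact f.2.2
  have hbd : ∀ f : {f : ι → ℤ[X] // Bd n H f ∧ P f}, ∀ s, |cvec' n f.1 s| ≤ H := by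
    intro f s
    exact (f.2.1 s.1).2.2 s.2 s.2.2
  unfold cnt
  refine Nat.card_le_card_of_injective (fun f => ⟨cvec' n f.1, hmem f, hbd f⟩) ?_
  intro f g hfg
  have h5 : cvec' n f.1 = cvec' n g.1 := congrArg Subtype.val hfg
  apply Subtype.ext
  rw [← h0 f, ← h0 g, h5]

/-- two equal splitting fields -/
def SameSpl {ι : Type} (f : ι → ℤ[X]) : Prop := ∃ i j, i ≠ j ∧ spl (f i) = spl (f j)

theorem count_spl {ι : Type} [Fintype ι] (n : ι → ℕ) (hn : ∀ i, 3 ≤ n i) : ∃ A : ℝ, ∀ H : ℕ,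
    2 ≤ H → (Nat.card {f : ι → ℤ[X] // Bd n H f ∧ SameSpl f} : ℝ) ≤
          A * Real.log H * (H : ℝ) ^ (((∑ i, n i : ℕ) : ℝ) - 1 / 3) := by
  obtain ⟨A, hA, h1⟩ := thin_spl n hn
  refine ⟨A, fun H hH => ?_⟩
  have h2 := h1 H hH
  have hH0 : (0 : ℝ) < H := by exact_mod_cast (by omega : 0 < H)
  have hcard : Fintype.card (Σ i, Fin (n i)) = ∑ i, n i := by
    rw [Fintype.card_sigma]
    simp
  unfold rt at h2
  rw [hcard] at h2
  have h3 : (H : ℝ) ^ (((∑ i, n i : ℕ) : ℝ) - 1 / 3) =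
      (H : ℝ) ^ (-(1 / 3) : ℝ) * (H : ℝ) ^ (∑ i, n i) := by
    rw [sub_eq_add_neg, Real.rpow_add hH0, Real.rpow_natCast]
    ring
  rw [h3]
  refine le_trans ?_ h2
  have h4 := count_le n SameSpl H
  unfold SameSpl at h4
  exact Nat.cast_le.2 h4

end Pool.Agent.N750.HJ
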